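import Pool.Agent.H11.LGR.Targets

/-! Row SIB of `lgr_modules`: the image of an irreducible representation is finite. -/

set_option autoImplicit false

open MvPolynomial Pool.Agent.H87.CLG Pool.Agent.H11.LGR

namespace Pool.Agent.H79.LGR

theorem mk_eq_of_map_eq {Γ A : Type} [Group Γ] [Monoid A] (ρ : Γ →* A) {a b : Γ}
    (h : ρ a = ρ b) : (QuotientGroup.mk' ρ.ker a) = QuotientGroup.mk' ρ.ker b := by
  rw [QuotientGroup.mk'_apply, QuotientGroup.mk'_apply, QuotientGroup.eq, MonoidHom.mem_ker,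
    map_mul, ← h, ← map_mul, inv_mul_cancel, map_one]

/-- the image of a generating set in a quotient -/
theorem gx_mk {Γ : Type} [Group Γ] (N : Subgroup Γ) [N.Normal] {X : Set Γ} (hX : GX X) :
    GX (QuotientGroup.mk' N '' X) := by
  refine ⟨⟨1, hX.one, map_one _⟩, ?_, ?_, ?_⟩
  · rintro _ ⟨x, hx, rfl⟩
    exact ⟨x⁻¹, hX.inv x hx, map_inv _ _⟩
  · rintro g _ ⟨x, hx, rfl⟩
    obtain ⟨g', rfl⟩ := QuotientGroup.mk'_surjective N g
    exact ⟨g' * x * g'⁻¹, hX.conj g' x hx, by rw [map_mul, map_mul, map_inv]⟩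
  · rw [← MonoidHom.map_closure, hX.gen]
    exact Subgroup.map_top_of_surjective _ (QuotientGroup.mk'_surjective N)

theorem pf_SIB (hSIM : T_SIM) (hDIE : T_DIE) : T_SIB := by
  classical
  intro n ν hν
  obtain ⟨b, hb⟩ := hSIM n (ν (n ^ 2 + 1)) (hν _)
  obtain ⟨B, hB, hD⟩ := hDIE b (ν 1) (hν 1)
  refine ⟨B, hB, ?_⟩
  intro F W Γ _ _ _ _ _ _ X ρ hX hL hn hI
  obtain ⟨hfin, hcard⟩ := hb F W Γ X ρ hX hn hI fun l hl hlen => by
    have := hL l hl
    rwa [hlen] at this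
  let ψ : Module.End F W → Γ ⧸ ρ.ker := fun e =>
    if h : ∃ g, ρ g = e then QuotientGroup.mk' ρ.ker h.choose else 1
  have hψ : ∀ g, ψ (ρ g) = QuotientGroup.mk' ρ.ker g := by
    intro g
    have h : ∃ g', ρ g' = ρ g := ⟨g, rfl⟩
    show (if h : ∃ g', ρ g' = ρ g then QuotientGroup.mk' ρ.ker h.choose else 1) = _
    rw [dif_pos h]
    exact mk_eq_of_map_eq ρ h.choose_spec
  have himg : QuotientGroup.mk' ρ.ker '' X = ψ '' (ρ '' X) := by
    rw [Set.image_image]
    exact Set.image_congr fun g _ => (hψ g).symm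
  obtain ⟨h1, h2⟩ := hD (Γ ⧸ ρ.ker) (QuotientGroup.mk' ρ.ker '' X) (gx_mk ρ.ker hX)
    (by rw [himg]; exact hfin.image ψ)
    (by rw [himg]; exact (Set.ncard_image_le hfin).trans hcard)
    (by
      rintro _ ⟨x, hx, rfl⟩
      have h3 : ρ (x ^ ν 1) = ρ 1 := by
        have := hL [x] (by simpa using hx)
        rw [List.prod_singleton, List.length_singleton] at this
        rw [map_pow, this, map_one]
      rw [← map_pow, mk_eq_of_map_eq ρ h3, map_one])
  rw [Subgroup.index_eq_card]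
  haveI := h1
  exact ⟨Nat.card_pos.ne', h2⟩

end Pool.Agent.H79.LGR
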